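import Mathlib
import Pool.Agent.H39R3.PB.Basic
import Pool.Agent.H830R3.PB.T2

/-!
# Second moments of products with position dependent digit ranges, and the majorant
-/

set_option autoImplicit false

namespace Pool.Agent.W139.PW

open Finset Pool.Agent.Helper112 Pool.Agent.H39R3.PB

/-- the second moment of an exponential sum over a complete set of fractions -/
lemma sq_sum_ee {ι : Type*} (S : Finset ι) (N : ι → ℕ) (q : ℕ) (hq : 0 < q) :
    ∑ a ∈ range q, ‖∑ m ∈ S, ee ((N m : ℝ) * ((a : ℝ) / q))‖ ^ 2 =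
      ∑ p ∈ S ×ˢ S, if (q : ℤ) ∣ ((N p.1 : ℤ) - N p.2) then (q : ℝ) else 0 := by
  have h0 : ∀ α : ℝ, ((‖∑ m ∈ S, ee ((N m : ℝ) * α)‖ ^ 2 : ℝ) : ℂ) =
      ∑ p ∈ S ×ˢ S, ee ((((N p.1 : ℤ) - N p.2 : ℤ) : ℝ) * α) := by
    intro α
    push_cast
    rw [← Complex.mul_conj', map_sum, sum_mul_sum, sum_product]
    apply sum_congr rfl
    intro m _
    apply sum_congr rfl
    intro m' _
    rw [ls_conj_ee, ← ls_ee_add]
    congr 1
    ring
  have h : ((∑ a ∈ range q, ‖∑ m ∈ S, ee ((N m : ℝ) * ((a : ℝ) / q))‖ ^ 2 : ℝ) : ℂ) =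
      ((∑ p ∈ S ×ˢ S, (if (q : ℤ) ∣ ((N p.1 : ℤ) - N p.2) then (q : ℝ) else 0) : ℝ) : ℂ) := by
    rw [Complex.ofReal_sum, Complex.ofReal_sum]
    have h1 : ∀ a ∈ range q, ((‖∑ m ∈ S, ee ((N m : ℝ) * ((a : ℝ) / q))‖ ^ 2 : ℝ) : ℂ) =
        ∑ p ∈ S ×ˢ S, ee ((((N p.1 : ℤ) - N p.2 : ℤ) : ℝ) * ((a : ℝ) / q)) := fun a _ => h0 _
    rw [sum_congr rfl h1, sum_comm]
    apply sum_congr rfl
    intro p _
    rw [Pool.Agent.H830R3.PB.T2.sum_ee q hq]
    split_ifs <;> simp
  exact_mod_cast h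

/-- sum over the moduli -/
lemma sum_moduli {ι : Type*} [DecidableEq ι] (S : Finset ι) (N : ι → ℕ) (M R Q : ℕ) (T : ℝ) (hT0 : 0 ≤ T)
    (hinj : ∀ m ∈ S, ∀ m' ∈ S, N m = N m' → m = m') (hle : ∀ m ∈ S, N m ≤ R)
    (hT : ∀ n : ℕ, 1 ≤ n → n ≤ R → (n.divisors.card : ℝ) ≤ T) :
    ∑ q ∈ (Ico Q (2 * Q)).filter (fun q => q.Coprime M),
      ∑ a ∈ range q, ‖∑ m ∈ S, ee ((N m : ℝ) * ((a : ℝ) / q))‖ ^ 2 ≤
      2 * Q * (Q * S.card + T * (S.card : ℝ) ^ 2) := by
  rcases Nat.eq_zero_or_pos Q with hQ | hQ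
  · subst hQ
    simp
  have h1 : ∑ q ∈ (Ico Q (2 * Q)).filter (fun q => q.Coprime M),
      ∑ a ∈ range q, ‖∑ m ∈ S, ee ((N m : ℝ) * ((a : ℝ) / q))‖ ^ 2 =
      ∑ p ∈ S ×ˢ S, ∑ q ∈ (Ico Q (2 * Q)).filter (fun q => q.Coprime M),
        if (q : ℤ) ∣ ((N p.1 : ℤ) - N p.2) then (q : ℝ) else 0 := by
    rw [sum_comm]
    apply sum_congr rfl
    intro q hq
    rw [mem_filter, mem_Ico] at hq
    exact sq_sum_ee S N q (by omega)
  rw [h1]
  have h2 : ∀ p ∈ S ×ˢ S, ∑ q ∈ (Ico Q (2 * Q)).filter (fun q => q.Coprime M),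
        (if (q : ℤ) ∣ ((N p.1 : ℤ) - N p.2) then (q : ℝ) else 0) ≤
      (if p.1 = p.2 then (2 * Q * Q : ℝ) else 0) + 2 * Q * T := by
    intro p hp
    rw [mem_product] at hp
    split_ifs with h
    · have h3 : ∑ q ∈ (Ico Q (2 * Q)).filter (fun q => q.Coprime M),
          (if (q : ℤ) ∣ ((N p.1 : ℤ) - N p.2) then (q : ℝ) else 0) ≤ 2 * Q * Q := by
        calc ∑ q ∈ (Ico Q (2 * Q)).filter (fun q => q.Coprime M),
          (if (q : ℤ) ∣ ((N p.1 : ℤ) - N p.2) then (q : ℝ) else 0)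
            ≤ ∑ q ∈ (Ico Q (2 * Q)).filter (fun q => q.Coprime M), (2 * Q : ℝ) := by
              apply sum_le_sum
              intro q hq
              rw [mem_filter, mem_Ico] at hq
              have : (q : ℝ) ≤ 2 * Q := by exact_mod_cast hq.1.2.le
              split_ifs
              · exact this
              · positivity
          _ ≤ ∑ q ∈ Ico Q (2 * Q), (2 * Q : ℝ) :=
              sum_le_sum_of_subset_of_nonneg (filter_subset _ _) (fun _ _ _ => by positivity)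
          _ = 2 * Q * Q := by
              rw [sum_const, Nat.card_Ico, nsmul_eq_mul]
              have : 2 * Q - Q = Q := by omega
              rw [this]
              ring
      have : 0 ≤ 2 * (Q : ℝ) * T := by positivity
      linarith
    · have hne : N p.1 ≠ N p.2 := fun h' => h (hinj _ hp.1 _ hp.2 h')
      set n := ((N p.1 : ℤ) - N p.2).natAbs with hn
      have hn1 : 1 ≤ n := by omega
      have hle1 := hle _ hp.1
      have hle2 := hle _ hp.2
      have hn2 : n ≤ R := by omega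
      have hdiv := hT n hn1 hn2
      rw [zero_add]
      calc ∑ q ∈ (Ico Q (2 * Q)).filter (fun q => q.Coprime M),
          (if (q : ℤ) ∣ ((N p.1 : ℤ) - N p.2) then (q : ℝ) else 0)
          ≤ ∑ q ∈ Ico Q (2 * Q), (if q ∣ n then (2 * Q : ℝ) else 0) := by
            refine (sum_le_sum_of_subset_of_nonneg (filter_subset _ _)
              (fun _ _ _ => by positivity)).trans ?_
            apply sum_le_sum
            intro q hq
            rw [mem_Ico] at hq
            have h2 : (q : ℝ) ≤ 2 * Q := by exact_mod_cast hq.2.le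
            have h3 : ((q : ℤ) ∣ ((N p.1 : ℤ) - N p.2)) ↔ q ∣ n := by
              rw [hn, Int.natCast_dvd]
            simp only [h3]
            split_ifs
            · exact h2
            · exact le_rfl
        _ = ((Ico Q (2 * Q)).filter (fun q => q ∣ n)).card * (2 * Q : ℝ) := by
            rw [← sum_filter, sum_const, nsmul_eq_mul]
        _ ≤ (n.divisors.card : ℝ) * (2 * Q : ℝ) := by
            apply mul_le_mul_of_nonneg_right _ (by positivity)
            have : (Ico Q (2 * Q)).filter (fun q => q ∣ n) ⊆ n.divisors := by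
              intro q hq
              rw [mem_filter] at hq
              exact Nat.mem_divisors.2 ⟨hq.2, by omega⟩
            exact_mod_cast card_le_card this
        _ ≤ T * (2 * Q : ℝ) := mul_le_mul_of_nonneg_right hdiv (by positivity)
        _ = 2 * Q * T := by ring
  refine (sum_le_sum h2).trans (le_of_eq ?_)
  rw [sum_add_distrib, sum_const, card_product, nsmul_eq_mul, sum_product]
  have h3 : ∑ x ∈ S, ∑ y ∈ S, (if (x, y).1 = (x, y).2 then (2 * Q * Q : ℝ) else 0) =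
      S.card * (2 * Q * Q) := by
    rw [sum_congr rfl (g := fun _ => (2 * Q * Q : ℝ))]
    · rw [sum_const, nsmul_eq_mul]
    · intro x hx
      simp only
      rw [sum_ite_eq, if_pos hx]
  rw [h3]
  push_cast
  ring

/-- the integer attached to a digit vector on the positions `B` -/
def NB (b L : ℕ) (B : Finset ℕ) (m : B → ℕ) : ℕ := ∑ c : B, m c * fr b L c

/-- the digit vectors on the positions `B`, with the digit at `c` below `s c` -/
def digs (B : Finset ℕ) (s : ℕ → ℕ) : Finset (B → ℕ) := Fintype.piFinset (fun c : B => range (s c))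

lemma mem_digs {B : Finset ℕ} {s : ℕ → ℕ} {m : B → ℕ} : m ∈ digs B s ↔ ∀ c : B, m c < s c := by
  unfold digs
  simp [Fintype.mem_piFinset]

lemma card_digs (B : Finset ℕ) (s : ℕ → ℕ) : (digs B s).card = ∏ c ∈ B, s c := by
  unfold digs
  rw [Fintype.card_piFinset]
  simp only [card_range]
  exact prod_coe_sort B s

lemma NB_eq (b L : ℕ) {B : Finset ℕ} (hB : B ⊆ range L) (m : B → ℕ) :
    NB b L B m = ∑ c ∈ range L, (if h : c ∈ B then m ⟨c, h⟩ else 0) * fr b L (0 + c) := by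
  have h1 : NB b L B m = ∑ c ∈ B, (if h : c ∈ B then m ⟨c, h⟩ else 0) * fr b L c := by
    rw [← sum_coe_sort B]
    unfold NB
    apply sum_congr rfl
    intro c _
    rw [dif_pos c.2]
  rw [h1, sum_subset hB]
  · simp only [zero_add]
  · intro c _ hc
    rw [dif_neg hc, zero_mul]

lemma NB_inj {b : ℕ} (hb : 2 ≤ b) (L : ℕ) {B : Finset ℕ} (hB : B ⊆ range L) (s : ℕ → ℕ)
    (hs : ∀ c ∈ B, s c ≤ b) (m m' : B → ℕ) (hm : m ∈ digs B s) (hm' : m' ∈ digs B s)
    (h : NB b L B m = NB b L B m') : m = m' := by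
  rw [mem_digs] at hm hm'
  rw [NB_eq b L hB, NB_eq b L hB] at h
  have h2 := Pool.Agent.H830R3.PB.T2.digits_inj hb L 0 _ _ L (by omega) (fun j hj => by
      split_ifs with hj'
      · exact (hm ⟨j, hj'⟩).trans_le (hs j hj')
      · omega) (fun j hj => by
      split_ifs with hj'
      · exact (hm' ⟨j, hj'⟩).trans_le (hs j hj')
      · omega) h
  funext c
  have h3 := h2 c (mem_range.1 (hB c.2))
  rw [dif_pos c.2, dif_pos c.2] at h3
  exact h3

lemma NB_le {b : ℕ} (hb : 2 ≤ b) (L : ℕ) {B : Finset ℕ} (hB : B ⊆ range L) (s : ℕ → ℕ)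
    (hs : ∀ c ∈ B, s c ≤ b) (m : B → ℕ) (hm : m ∈ digs B s) : NB b L B m ≤ b ^ (2 * L + 1) := by
  rw [mem_digs] at hm
  rw [NB_eq b L hB]
  obtain ⟨e, rfl⟩ : ∃ e, b = e + 1 := ⟨b - 1, by omega⟩
  have h1 : ∀ K : ℕ, ∑ j ∈ range K, e * fr (e + 1) L (0 + j) ≤ 2 * (e + 1) ^ (L + K) := by
    intro K
    induction K with
    | zero => simp
    | succ K ih =>
      rw [sum_range_succ]
      have h2 := Nat.mul_le_mul_left e (Pool.Agent.H830R3.PB.T2.fr_le hb L (0 + K))
      have e1 : 2 * (e + 1) ^ (L + (K + 1)) =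
          2 * (e + 1) ^ (L + K) + e * (2 * (e + 1) ^ (L + (0 + K))) := by ring
      rw [e1]
      omega
  calc ∑ c ∈ range L, (if h : c ∈ B then m ⟨c, h⟩ else 0) * fr (e + 1) L (0 + c)
      ≤ ∑ c ∈ range L, e * fr (e + 1) L (0 + c) := by
        apply sum_le_sum
        intro c _
        apply Nat.mul_le_mul_right
        split_ifs with h
        · have h1 := hm ⟨c, h⟩
          have h2 := hs c h
          simp only at h1
          omega
        · omega
    _ ≤ 2 * (e + 1) ^ (L + L) := h1 L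
    _ ≤ (e + 1) ^ (2 * L + 1) := by
        rw [pow_succ, ← two_mul, mul_comm]
        exact Nat.mul_le_mul_left _ hb

/-- the product of normalised digit sums over the positions `B` -/
noncomputable def PS (b L : ℕ) (B : Finset ℕ) (s : ℕ → ℕ) (α : ℝ) : ℝ :=
  ∏ c ∈ B, ph (s c) (fr b L c * α)

lemma PS_eq (b L : ℕ) (B : Finset ℕ) (s : ℕ → ℕ) (α : ℝ) :
    PS b L B s α = ‖∑ m ∈ digs B s, ee ((NB b L B m : ℝ) * α)‖ / ∏ c ∈ B, (s c : ℝ) := by
  have h1 : ∑ m ∈ digs B s, ee ((NB b L B m : ℝ) * α) =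
      ∏ c : B, ∑ d ∈ range (s c), ee ((d : ℝ) * (fr b L c * α)) := by
    rw [prod_univ_sum]
    apply sum_congr rfl
    intro m _
    have h2 : ∀ t : Finset B, ee ((∑ c ∈ t, ((m c : ℕ) : ℝ) * (fr b L c)) * α) =
        ∏ c ∈ t, ee (((m c : ℕ) : ℝ) * (fr b L c * α)) := by
      intro t
      classical
      induction t using Finset.induction_on with
      | empty => simp [ls_ee_zero]
      | insert a t ha ih =>
        rw [sum_insert ha, prod_insert ha, ← ih, ← ls_ee_add]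
        congr 1
        ring
    rw [← h2]
    congr 2
    unfold NB
    push_cast
    rfl
  rw [h1, norm_prod, prod_coe_sort B (fun c => ‖∑ d ∈ range (s c), ee ((d : ℝ) * (fr b L c * α))‖),
    ← prod_div_distrib]
  rfl

lemma PS_nonneg (b L : ℕ) (B : Finset ℕ) (s : ℕ → ℕ) (α : ℝ) : 0 ≤ PS b L B s α :=
  prod_nonneg fun _ _ => ph_nonneg _ _

/-- second moment of a product over any set of positions -/
theorem apts_sq {b : ℕ} (hb : 2 ≤ b) (L Q : ℕ) (T : ℝ) (B : Finset ℕ) (hB : B ⊆ range L) (s : ℕ → ℕ)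
    (hs : ∀ c ∈ B, s c ≤ b) (hs1 : ∀ c ∈ B, 1 ≤ s c)
    (hT : ∀ n : ℕ, 1 ≤ n → n ≤ b ^ (2 * L + 1) → (n.divisors.card : ℝ) ≤ T) :
    apts b Q (fun α => ∏ c ∈ B, ph (s c) (fr b L c * α) ^ 2) ≤
      2 * Q * (Q * ∏ c ∈ B, (1 / (s c : ℝ)) + T) := by
  classical
  have hT0 : 0 ≤ T := by
    have := hT 1 le_rfl (Nat.one_le_pow _ _ (by omega))
    refine le_trans ?_ this
    positivity
  set P : ℝ := ∏ c ∈ B, (s c : ℝ) with hP
  have hP0 : 0 < P := by
    apply prod_pos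
    intro c hc
    exact_mod_cast hs1 c hc
  have h1 : apts b Q (fun α => ∏ c ∈ B, ph (s c) (fr b L c * α) ^ 2) =
      (∑ q ∈ (Ico Q (2 * Q)).filter (fun q => q.Coprime (2 * b)),
      ∑ a ∈ range q, ‖∑ m ∈ digs B s, ee ((NB b L B m : ℝ) * ((a : ℝ) / q))‖ ^ 2) / P ^ 2 := by
    unfold apts
    rw [sum_div]
    apply sum_congr rfl
    intro q _
    rw [sum_div]
    apply sum_congr rfl
    intro a _
    simp only
    rw [prod_pow]
    have := PS_eq b L B s ((a : ℝ) / q)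
    unfold PS at this
    rw [this, div_pow]
  rw [h1, div_le_iff₀ (by positivity)]
  refine (sum_moduli (digs B s) (NB b L B) (2 * b) (b ^ (2 * L + 1)) Q T hT0
    (fun m hm m' hm' h => NB_inj hb L hB s hs m m' hm hm' h)
    (fun m hm => NB_le hb L hB s hs m hm) hT).trans (le_of_eq ?_)
  rw [card_digs]
  push_cast
  rw [← hP]
  have h2 : ∏ c ∈ B, (1 / (s c : ℝ)) = 1 / P := by
    rw [prod_div_distrib, prod_const_one]
  rw [h2]
  field_simp

lemma apts_mul_left {b Q : ℕ} (c : ℝ) (f : ℝ → ℝ) : apts b Q (fun x => c * f x) = c * apts b Q f := by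
  unfold apts
  simp only [mul_sum]

lemma apts_sum {b Q : ℕ} {ι : Type*} (s : Finset ι) (f : ι → ℝ → ℝ) :
    apts b Q (fun x => ∑ i ∈ s, f i x) = ∑ i ∈ s, apts b Q (f i) := by
  unfold apts
  rw [sum_comm]
  apply sum_congr rfl
  intro q _
  rw [sum_comm]

/-- the majorant at one position -/
noncomputable def Gm (s t : ℕ) (β : ℝ) : ℝ := (ph s β ^ 2 + ph t β ^ 2) / 2

lemma Gm_nonneg (s t : ℕ) (β : ℝ) : 0 ≤ Gm s t β := by
  unfold Gm
  positivity

lemma ph_mul_le_Gm (s t : ℕ) (β : ℝ) : ph s β * ph t β ≤ Gm s t β := by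
  unfold Gm
  nlinarith [sq_nonneg (ph s β - ph t β)]

/-- complete sums of the products of the majorant -/
theorem apts_Gm {b : ℕ} (hb : 2 ≤ b) (L Q : ℕ) (T : ℝ) (B : Finset ℕ) (hB : B ⊆ range L)
    (s t : ℕ → ℕ) (hs : ∀ c ∈ B, s c ≤ b) (hs1 : ∀ c ∈ B, 1 ≤ s c) (ht : ∀ c ∈ B, t c ≤ b)
    (ht1 : ∀ c ∈ B, 1 ≤ t c)
    (hT : ∀ n : ℕ, 1 ≤ n → n ≤ b ^ (2 * L + 1) → (n.divisors.card : ℝ) ≤ T) :
    apts b Q (fun α => ∏ c ∈ B, Gm (s c) (t c) (fr b L c * α)) ≤
      2 * Q * (Q * ∏ c ∈ B, ((1 / (s c : ℝ) + 1 / (t c : ℝ)) / 2) + T) := by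
  classical
  have h1 : (fun α : ℝ => ∏ c ∈ B, Gm (s c) (t c) (fr b L c * α)) = fun α =>
      ∑ A ∈ B.powerset, (1 / 2 : ℝ) ^ B.card * ∏ c ∈ B, ph (if c ∈ A then s c else t c) (fr b L c * α) ^ 2 := by
    funext α
    have h2 : ∏ c ∈ B, Gm (s c) (t c) (fr b L c * α) =
        ∏ c ∈ B, (ph (s c) (fr b L c * α) ^ 2 / 2 + ph (t c) (fr b L c * α) ^ 2 / 2) := by
      apply prod_congr rfl
      intro c _
      unfold Gm
      ring
    rw [h2, prod_add]
    apply sum_congr rfl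
    intro A hA
    rw [mem_powerset] at hA
    have h3 : ∏ c ∈ B, ph (if c ∈ A then s c else t c) (fr b L c * α) ^ 2 =
        (∏ c ∈ A, ph (s c) (fr b L c * α) ^ 2) * ∏ c ∈ B \ A, ph (t c) (fr b L c * α) ^ 2 := by
      rw [← prod_sdiff hA, mul_comm]
      congr 1
      · apply prod_congr rfl
        intro c hc
        rw [if_pos hc]
      · apply prod_congr rfl
        intro c hc
        rw [mem_sdiff] at hc
        rw [if_neg hc.2]
    rw [h3, prod_div_distrib, prod_div_distrib, prod_const, prod_const]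
    have h4 : (2 : ℝ) ^ A.card * 2 ^ (B \ A).card = 2 ^ B.card := by
      rw [← pow_add, card_sdiff_of_subset hA]
      congr 1
      have := card_le_card hA
      omega
    rw [one_div, inv_pow, ← h4, mul_inv]
    ring
  rw [h1, apts_sum]
  have h2 : ∀ A ∈ B.powerset, apts b Q (fun α => (1 / 2 : ℝ) ^ B.card *
      ∏ c ∈ B, ph (if c ∈ A then s c else t c) (fr b L c * α) ^ 2) ≤
      (1 / 2 : ℝ) ^ B.card * (2 * Q * (Q * ∏ c ∈ B, (1 / ((if c ∈ A then s c else t c : ℕ) : ℝ)) + T)) := by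
    intro A _
    rw [apts_mul_left]
    apply mul_le_mul_of_nonneg_left _ (by positivity)
    apply apts_sq hb L Q T B hB (fun c => if c ∈ A then s c else t c)
    · intro c hc
      split_ifs
      · exact hs c hc
      · exact ht c hc
    · intro c hc
      split_ifs
      · exact hs1 c hc
      · exact ht1 c hc
    · exact hT
  refine (sum_le_sum h2).trans (le_of_eq ?_)
  have h5 : ∏ c ∈ B, ((1 / (s c : ℝ) + 1 / (t c : ℝ)) / 2) =
      ∑ A ∈ B.powerset, (1 / 2 : ℝ) ^ B.card * ∏ c ∈ B, (1 / ((if c ∈ A then s c else t c : ℕ) : ℝ)) := by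
    have h2 : ∏ c ∈ B, ((1 / (s c : ℝ) + 1 / (t c : ℝ)) / 2) =
        ∏ c ∈ B, ((1 / (s c : ℝ)) / 2 + (1 / (t c : ℝ)) / 2) := by
      apply prod_congr rfl
      intro c _
      ring
    rw [h2, prod_add]
    apply sum_congr rfl
    intro A hA
    rw [mem_powerset] at hA
    have h3 : ∏ c ∈ B, (1 / ((if c ∈ A then s c else t c : ℕ) : ℝ)) =
        (∏ c ∈ A, (1 / (s c : ℝ))) * ∏ c ∈ B \ A, (1 / (t c : ℝ)) := by
      rw [← prod_sdiff hA, mul_comm]
      congr 1
      · apply prod_congr rfl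
        intro c hc
        rw [if_pos hc]
      · apply prod_congr rfl
        intro c hc
        rw [mem_sdiff] at hc
        rw [if_neg hc.2]
    rw [h3, prod_div_distrib (s := A) (f := fun c => 1 / (s c : ℝ)) (g := fun _ => (2 : ℝ)),
      prod_div_distrib (s := B \ A) (f := fun c => 1 / (t c : ℝ)) (g := fun _ => (2 : ℝ)),
      prod_const, prod_const]
    have h4 : (2 : ℝ) ^ A.card * 2 ^ (B \ A).card = 2 ^ B.card := by
      rw [← pow_add, card_sdiff_of_subset hA]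
      congr 1
      have := card_le_card hA
      omega
    rw [one_div (2 : ℝ), inv_pow, ← h4, mul_inv]
    ring
  rw [h5]
  have h6 : ∑ A ∈ B.powerset, (1 / 2 : ℝ) ^ B.card = 1 := by
    rw [sum_const, card_powerset, nsmul_eq_mul]
    push_cast
    rw [← mul_pow]
    norm_num
  have h7 : ∀ A ∈ B.powerset, (1 / 2 : ℝ) ^ B.card *
      (2 * Q * (Q * ∏ c ∈ B, (1 / ((if c ∈ A then s c else t c : ℕ) : ℝ)) + T)) =
      2 * Q * Q * ((1 / 2 : ℝ) ^ B.card * ∏ c ∈ B, (1 / ((if c ∈ A then s c else t c : ℕ) : ℝ))) +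
      2 * Q * T * (1 / 2 : ℝ) ^ B.card := by
    intro A _
    ring
  rw [sum_congr rfl h7, sum_add_distrib, ← mul_sum (f := fun A => (1 / 2 : ℝ) ^ B.card *
    ∏ c ∈ B, (1 / ((if c ∈ A then s c else t c : ℕ) : ℝ))), ← mul_sum (f := fun _ => (1 / 2 : ℝ) ^ B.card), h6]
  ring

end Pool.Agent.W139.PW
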