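import Mathlib
import Pool.Agent.H944R3.PB_T1

/-!
# Large sieve for products with position dependent weights (generalises `Pool.Agent.H944R3.PB.block_ls`)
-/

set_option autoImplicit false

namespace Pool.Agent.W139.PW

open Finset Pool.Agent.Helper112 Pool.Agent.H39R3.PB Pool.Agent.H944R3.PB

/-- the digit polynomial at one position, evaluated at `e(β)` -/
noncomputable def W1 (b : ℕ) (w : ℕ → ℝ) (β : ℝ) : ℂ := ∑ s ∈ range (2 * b - 1), (w s : ℂ) * ee (s * β)

lemma W1_add_int (b : ℕ) (w : ℕ → ℝ) (β : ℝ) (k : ℤ) : W1 b w (β + k) = W1 b w β := by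
  unfold W1
  apply sum_congr rfl
  intro s _
  congr 1
  have : ((s : ℝ) * (β + k)) = s * β + ((s * k : ℤ) : ℝ) := by push_cast; ring
  rw [this, ls_ee_add, ls_ee_int, mul_one]

lemma W1_expand (b : ℕ) (M : ℕ) (w : ℕ → ℕ → ℝ) (x : ℝ) :
    ∏ c : Fin (M + 1), W1 b (w c) (fr b M c * x) =
      ∑ s ∈ Fintype.piFinset (fun _ : Fin (M + 1) => range (2 * b - 1)),
        ((∏ c : Fin (M + 1), w c (s c) : ℝ) : ℂ) * ee (nn b M s * x) := by
  unfold W1
  rw [prod_univ_sum]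
  apply sum_congr rfl
  intro s _
  rw [prod_mul_distrib]
  push_cast
  congr 1
  unfold nn
  push_cast
  rw [sum_mul]
  induction (univ : Finset (Fin (M + 1))) using Finset.induction_on with
  | empty => simp [ee]
  | insert a t ha ih =>
    rw [prod_insert ha, sum_insert ha, ls_ee_add, ih]
    congr 2
    ring

/-- large sieve for the block, after rescaling -/
lemma block_ls' (b : ℕ) (hb : 2 ≤ b) (M F : ℕ) (w : ℕ → ℕ → ℝ) :
    ∑ f ∈ Icc 1 F, ∑ a ∈ (range f).filter (fun a => a.Coprime f),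
      ‖∏ c : Fin (M + 1), W1 b (w c) (fr b M c * ((a : ℝ) / f))‖ ^ 2 ≤
      6 * ((2 * b ^ (2 * M + 1) : ℕ) + (F : ℝ) ^ 2) *
        ∏ c : Fin (M + 1), ∑ s ∈ range (2 * b - 1), (w c s) ^ 2 := by
  classical
  set P := Fintype.piFinset (fun _ : Fin (M + 1) => range (2 * b - 1)) with hP
  set W : (Fin (M + 1) → ℕ) → ℝ := fun s => (∏ c : Fin (M + 1), w c (s c) : ℝ) with hW
  set α : ℕ → ℂ := fun n => ∑ s ∈ P.filter (fun s => nn b M s + 1 = n), (W s : ℂ) with hα
  set N := 2 * b ^ (2 * M + 1) with hN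
  have hs18 : ∀ s ∈ P, ∀ c, s c ≤ 2 * (b - 1) := by
    intro s hs c
    rw [hP, Fintype.mem_piFinset] at hs
    have := mem_range.1 (hs c)
    omega
  have hmaps : ∀ s ∈ P, nn b M s + 1 ∈ Icc 1 N := by
    intro s hs
    rw [mem_Icc]
    exact ⟨by omega, nn_le b hb M s (hs18 s hs)⟩
  have key := additive_large_sieve N F α
  have h1 : ∑ n ∈ Icc 1 N, ‖α n‖ ^ 2 =
      ∏ c : Fin (M + 1), ∑ s ∈ range (2 * b - 1), (w c s) ^ 2 := by
    have h2 : ∀ n, ‖α n‖ ^ 2 = ∑ s ∈ P.filter (fun s => nn b M s + 1 = n), W s ^ 2 := by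
      intro n
      rw [hα]
      simp only
      rcases (P.filter (fun s => nn b M s + 1 = n)).eq_empty_or_nonempty with h | ⟨s, hs⟩
      · rw [h]; simp
      · have : P.filter (fun s => nn b M s + 1 = n) = {s} := by
          apply eq_singleton_iff_unique_mem.2 ⟨hs, ?_⟩
          intro t ht
          rw [mem_filter] at hs ht
          exact nn_inj b hb M t s (hs18 t ht.1) (hs18 s hs.1) (by omega)
        rw [this]
        simp
    simp_rw [h2]
    rw [sum_fiberwise_of_maps_to hmaps (fun s => W s ^ 2)]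
    have h3 : ∀ s, W s ^ 2 = ∏ c : Fin (M + 1), (w c (s c)) ^ 2 := by
      intro s
      rw [hW]
      simp only
      rw [← prod_pow]
    simp_rw [h3]
    rw [hP, ← prod_univ_sum (fun _ : Fin (M + 1) => range (2 * b - 1))
      (fun c j => (w c j) ^ 2)]
  rw [h1] at key
  refine le_trans (le_of_eq ?_) key
  apply sum_congr rfl
  intro f _
  apply sum_congr rfl
  intro a _
  congr 1
  rw [W1_expand b]
  have h4 : ∑ n ∈ Icc 1 N, α n * ee (n * a / f) =
      ee ((a : ℝ) / f) * ∑ s ∈ P, ((∏ c : Fin (M + 1), w c (s c) : ℝ) : ℂ) *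
        ee (nn b M s * ((a : ℝ) / f)) := by
    rw [hα]
    simp only
    simp_rw [sum_mul]
    rw [← sum_fiberwise_of_maps_to hmaps, mul_sum]
    apply sum_congr rfl
    intro n _
    rw [mul_sum]
    apply sum_congr rfl
    intro s hs
    rw [mem_filter] at hs
    rw [← hs.2, hW]
    have : ee (((nn b M s + 1 : ℕ) : ℝ) * a / f) =
        ee ((a : ℝ) / f) * ee (nn b M s * ((a : ℝ) / f)) := by
      rw [← ls_ee_add]
      congr 1
      push_cast
      ring
    rw [this]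
    ring
  rw [h4, norm_mul, ls_norm_ee, one_mul]

/-- large sieve for the block of the positions `0, …, J-1` -/
theorem pts_block (b : ℕ) (hb : 2 ≤ b) (L J Q : ℕ) (w : ℕ → ℕ → ℝ) (hJ : 1 ≤ J) (hJL : J ≤ L)
    (h1 : Q ≤ b ^ J) (h2 : b ^ J ≤ b * Q) :
    pts b Q (fun α => ∏ c ∈ range J, ‖W1 b (w c) (fr b L c * α)‖ ^ 2) ≤
      6 * (2 * b + 4) * Q * ∏ c ∈ range J, (b * ∑ s ∈ range (2 * b - 1), (w c s) ^ 2) := by
  obtain ⟨M, rfl⟩ : ∃ M, J = M + 1 := ⟨J - 1, by omega⟩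
  have hb0 : 0 < b := by omega
  have hbR : (0 : ℝ) < b := by exact_mod_cast hb0
  have hQ : 1 ≤ Q := by
    have : 0 < b ^ (M + 1) := by positivity
    by_contra hcon
    have h3 : Q = 0 := by omega
    rw [h3, mul_zero] at h2
    omega
  set F : ℝ → ℝ := fun x => ‖∏ c : Fin (M + 1), W1 b (w c) (fr b M c * x)‖ ^ 2 with hF
  have hper : ∀ (x : ℝ) (n : ℤ), F (x + n) = F x := by
    intro x n
    simp only [hF]
    congr 2
    apply prod_congr rfl
    intro c _
    have : (fr b M c : ℝ) * (x + n) = fr b M c * x + ((fr b M c * n : ℤ) : ℝ) := by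
      push_cast; ring
    rw [this, W1_add_int]
  have e1 : pts b Q (fun α => ∏ c ∈ range (M + 1), ‖W1 b (w c) (fr b L c * α)‖ ^ 2) = pts b Q F := by
    unfold pts
    apply sum_congr rfl
    intro q hq
    rw [mem_filter] at hq
    rw [← dilate (coprime_b hq.2) (L - M) F hper]
    apply sum_congr rfl
    intro a _
    simp only [hF]
    rw [norm_prod, ← prod_pow,
      ← Fin.prod_univ_eq_prod_range (fun c => ‖W1 b (w c) (fr b L c * ((a : ℝ) / q))‖ ^ 2) (M + 1)]
    apply prod_congr rfl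
    intro c _
    have h3 : (fr b L c : ℝ) = b ^ (L - M) * fr b M c := by
      have hc := c.2
      rw [fr_scale (show M ≤ L by omega) (show (c : ℕ) ≤ M by omega)]
      push_cast
      ring
    rw [h3]
    congr 3
    ring
  rw [e1]
  have e2 : pts b Q F ≤
      ∑ f ∈ Icc 1 (2 * Q), ∑ a ∈ (range f).filter (fun a => a.Coprime f), F ((a : ℝ) / f) := by
    unfold pts
    apply sum_le_sum_of_subset_of_nonneg
    · intro q hq
      rw [mem_filter, mem_Ico] at hq
      rw [mem_Icc]; omega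
    · intro q _ _
      exact sum_nonneg fun a _ => by simp only [hF]; positivity
  refine e2.trans ?_
  simp only [hF]
  refine (block_ls' b hb M (2 * Q) w).trans ?_
  have h3 : (b : ℝ) ^ M ≤ Q := by
    have : b ^ M ≤ Q := by
      have h4 : b ^ (M + 1) = b * b ^ M := by ring
      rw [h4] at h2
      exact Nat.le_of_mul_le_mul_left h2 hb0
    exact_mod_cast this
  have h4 : (Q : ℝ) ≤ (b : ℝ) ^ (M + 1) := by exact_mod_cast h1
  have hQ0 : (0 : ℝ) < Q := by exact_mod_cast hQ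
  have h5 : (((2 * b ^ (2 * M + 1) : ℕ)) : ℝ) + ((2 * Q : ℕ) : ℝ) ^ 2 ≤
      (2 * b + 4) * (Q : ℝ) ^ 2 := by
    push_cast
    have : (b : ℝ) ^ (2 * M + 1) = b * ((b : ℝ) ^ M) ^ 2 := by ring
    rw [this]
    have h6 : ((b : ℝ) ^ M) ^ 2 ≤ (Q : ℝ) ^ 2 := by gcongr
    have h7 : 2 * (b * ((b : ℝ) ^ M) ^ 2) ≤ 2 * (b * (Q : ℝ) ^ 2) := by gcongr
    linarith
  rw [Fin.prod_univ_eq_prod_range (fun c => ∑ s ∈ range (2 * b - 1), (w c s) ^ 2) (M + 1),
    prod_mul_distrib, prod_const, card_range]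
  set E : ℝ := ∏ c ∈ range (M + 1), ∑ s ∈ range (2 * b - 1), (w c s) ^ 2 with hE
  have hE0 : 0 ≤ E := prod_nonneg fun _ _ => sum_nonneg fun _ _ => sq_nonneg _
  calc 6 * (((2 * b ^ (2 * M + 1) : ℕ) : ℝ) + ((2 * Q : ℕ) : ℝ) ^ 2) * E
      ≤ 6 * ((2 * b + 4) * (Q : ℝ) ^ 2) * E := by gcongr
    _ = 6 * (2 * b + 4) * (Q : ℝ) * (Q * E) := by ring
    _ ≤ 6 * (2 * b + 4) * (Q : ℝ) * ((b : ℝ) ^ (M + 1) * E) := by gcongr

end Pool.Agent.W139.PW
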