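import Mathlib

/-!
# The number of solutions of `x1+x2+x3+x4 = y1+y2+y3+y4` in `[0,s)`
-/

set_option autoImplicit false

namespace Pool.Agent.W139.PW

open Finset Polynomial

/-- `1 + x + ... + x^(s-1)` -/
noncomputable def PP1 (s : ℕ) : ℝ[X] := ∑ i ∈ range s, X ^ i

lemma PP1_coeff (s n : ℕ) : (PP1 s).coeff n = if n < s then 1 else 0 := by
  unfold PP1
  simp [finsetSum_coeff, coeff_X_pow]

lemma PP1_deg (s : ℕ) (hs : 1 ≤ s) : (PP1 s).natDegree = s - 1 := by
  apply natDegree_eq_of_le_of_coeff_ne_zero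
  · rw [natDegree_le_iff_coeff_eq_zero]
    intro N hN
    rw [PP1_coeff, if_neg (by omega)]
  · rw [PP1_coeff, if_pos (by omega)]
    norm_num

lemma PP1_reverse (s : ℕ) : (PP1 s).reverse = PP1 s := by
  rcases Nat.eq_zero_or_pos s with h | h
  · subst h; simp [PP1]
  · ext n
    rw [coeff_reverse, PP1_deg s h, PP1_coeff, PP1_coeff]
    rcases le_or_gt n (s - 1) with h1 | h1
    · rw [revAt_le h1, if_pos (by omega), if_pos (by omega)]
    · rw [revAt_eq_self_of_lt h1]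

lemma reverse_pow' (p : ℝ[X]) (n : ℕ) : (p ^ n).reverse = p.reverse ^ n := by
  induction n with
  | zero =>
    rw [pow_zero, pow_zero, ← C_1, reverse_C]
  | succ n ih => rw [pow_succ, pow_succ, reverse_mul_of_domain, ih]

/-- sum of the squares of the coefficients of a palindromic polynomial -/
lemma sum_sq_coeff (p : ℝ[X]) (hp : p.reverse = p) (N : ℕ) (hN : p.natDegree < N) :
    ∑ t ∈ range N, (p.coeff t) ^ 2 = (p * p).coeff p.natDegree := by
  rw [coeff_mul, Finset.Nat.sum_antidiagonal_eq_sum_range_succ_mk]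
  have h1 : ∑ t ∈ range N, (p.coeff t) ^ 2 = ∑ t ∈ range (p.natDegree + 1), (p.coeff t) ^ 2 := by
    symm
    apply sum_subset
    · intro x hx
      rw [mem_range] at hx ⊢
      omega
    · intro x _ hx
      rw [mem_range] at hx
      rw [coeff_eq_zero_of_natDegree_lt (by omega)]
      norm_num
  rw [h1]
  apply sum_congr rfl
  intro t ht
  rw [mem_range] at ht
  simp only
  rw [sq]
  congr 1
  conv_lhs => rw [← hp]
  rw [coeff_reverse, revAt_le (by omega)]

lemma choose7 (n : ℕ) : ((n.choose 7 : ℕ) : ℝ) =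
    n * (n - 1) * (n - 2) * (n - 3) * (n - 4) * (n - 5) * (n - 6) / 5040 := by
  have h1 := descPochhammer_eval_eq_descFactorial ℝ n 7
  have h2 : (descPochhammer ℝ 7).eval (n : ℝ) =
      n * (n - 1) * (n - 2) * (n - 3) * (n - 4) * (n - 5) * (n - 6) := by
    simp [descPochhammer]
    ring
  rw [h2, Nat.descFactorial_eq_factorial_mul_choose] at h1
  have h3 : Nat.factorial 7 = 5040 := by decide
  rw [h3] at h1
  push_cast at h1
  rw [h1]
  ring

/-- the coefficient extraction -/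
lemma E8_choose (s : ℕ) (hs : 1 ≤ s) : ((PP1 s) ^ 8).coeff (4 * (s - 1)) =
    ((4 * s + 3).choose 7 : ℝ) - 8 * ((3 * s + 3).choose 7 : ℝ) + 28 * ((2 * s + 3).choose 7 : ℝ) -
      56 * ((s + 3).choose 7 : ℝ) := by
  have h0 : (PP1 s) * (1 - X) = 1 - X ^ s := by
    have h := geom_sum_mul (X : ℝ[X]) s
    unfold PP1
    have e1 : (∑ i ∈ range s, (X : ℝ[X]) ^ i) * (1 - X) = -((∑ i ∈ range s, (X : ℝ[X]) ^ i) * (X - 1)) := by
      ring
    rw [e1, h]
    ring
  have h1 : (((PP1 s) ^ 8 : ℝ[X]) : PowerSeries ℝ) * (1 - PowerSeries.X) ^ 8 =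
      (1 - PowerSeries.X ^ s) ^ 8 := by
    have h2 : (PP1 s) ^ 8 * (1 - X) ^ 8 = (1 - X ^ s) ^ 8 := by rw [← mul_pow, h0]
    have h3 := congrArg (fun p : ℝ[X] => (p : PowerSeries ℝ)) h2
    simpa using h3
  set I : PowerSeries ℝ := PowerSeries.mk fun n => ((Nat.choose (7 + n) 7 : ℕ) : ℝ) with hI
  have h2 : I * (1 - PowerSeries.X) ^ 8 = 1 := PowerSeries.mk_add_choose_mul_one_sub_pow_eq_one ℝ 7
  have h3 : (((PP1 s) ^ 8 : ℝ[X]) : PowerSeries ℝ) = (1 - PowerSeries.X ^ s) ^ 8 * I := by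
    calc (((PP1 s) ^ 8 : ℝ[X]) : PowerSeries ℝ)
        = (((PP1 s) ^ 8 : ℝ[X]) : PowerSeries ℝ) * (I * (1 - PowerSeries.X) ^ 8) := by rw [h2, mul_one]
      _ = ((((PP1 s) ^ 8 : ℝ[X]) : PowerSeries ℝ) * (1 - PowerSeries.X) ^ 8) * I := by ring
      _ = _ := by rw [h1]
  rw [← coeff_coe, h3]
  have h4 : (1 - (PowerSeries.X : PowerSeries ℝ) ^ s) ^ 8 * I =
      I - (8 : ℝ) • (PowerSeries.X ^ s * I) + (28 : ℝ) • (PowerSeries.X ^ (2 * s) * I) -
      (56 : ℝ) • (PowerSeries.X ^ (3 * s) * I) + (70 : ℝ) • (PowerSeries.X ^ (4 * s) * I) -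
      (56 : ℝ) • (PowerSeries.X ^ (5 * s) * I) + (28 : ℝ) • (PowerSeries.X ^ (6 * s) * I) -
      (8 : ℝ) • (PowerSeries.X ^ (7 * s) * I) + PowerSeries.X ^ (8 * s) * I := by
    simp only [PowerSeries.smul_eq_C_mul]
    simp only [map_ofNat]
    ring
  rw [h4]
  have hco : ∀ k : ℕ, k ≤ 4 * (s - 1) → (PowerSeries.coeff (4 * (s - 1))) (PowerSeries.X ^ k * I) =
      ((7 + (4 * (s - 1) - k)).choose 7 : ℝ) := by
    intro k hk
    rw [PowerSeries.coeff_X_pow_mul', if_pos hk, hI, PowerSeries.coeff_mk]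
  have hco0 : ∀ k : ℕ, 4 * (s - 1) < k → (PowerSeries.coeff (4 * (s - 1))) (PowerSeries.X ^ k * I) = 0 := by
    intro k hk
    rw [PowerSeries.coeff_X_pow_mul', if_neg (by omega)]
  simp only [map_add, map_sub, PowerSeries.coeff_smul]
  have e0 : (PowerSeries.coeff (4 * (s - 1))) I = ((4 * s + 3).choose 7 : ℝ) := by
    rw [hI, PowerSeries.coeff_mk]
    congr 2
    omega
  have e4 := hco0 (4 * s) (by omega)
  have e5 := hco0 (5 * s) (by omega)
  have e6 := hco0 (6 * s) (by omega)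
  have e7 := hco0 (7 * s) (by omega)
  have e8 := hco0 (8 * s) (by omega)
  have e1 : (PowerSeries.coeff (4 * (s - 1))) (PowerSeries.X ^ s * I) = ((3 * s + 3).choose 7 : ℝ) := by
    rcases le_or_gt s (4 * (s - 1)) with h | h
    · rw [hco s h]
      congr 2
      omega
    · rw [hco0 s h]
      obtain rfl : s = 1 := by omega
      norm_num [Nat.choose]
  have e2 : (PowerSeries.coeff (4 * (s - 1))) (PowerSeries.X ^ (2 * s) * I) = ((2 * s + 3).choose 7 : ℝ) := by
    rcases le_or_gt (2 * s) (4 * (s - 1)) with h | h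
    · rw [hco (2 * s) h]
      congr 2
      omega
    · rw [hco0 (2 * s) h]
      obtain rfl : s = 1 := by omega
      norm_num [Nat.choose]
  have e3 : (PowerSeries.coeff (4 * (s - 1))) (PowerSeries.X ^ (3 * s) * I) = ((s + 3).choose 7 : ℝ) := by
    rcases le_or_gt (3 * s) (4 * (s - 1)) with h | h
    · rw [hco (3 * s) h]
      congr 2
      omega
    · rw [hco0 (3 * s) h]
      have : s < 4 := by omega
      interval_cases s <;> norm_num [Nat.choose]
  rw [e0, e1, e2, e3, e4, e5, e6, e7, e8]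
  simp only [smul_eq_mul, mul_zero, add_zero, sub_zero]

/-- `15 * 21 * E_8(s) = 151 s^7 + 70 s^5 + 49 s^3 + 45 s` -/
lemma E8_formula (s : ℕ) (hs : 1 ≤ s) : ((PP1 s) ^ 8).coeff (4 * (s - 1)) =
    (s : ℝ) * (151 * s ^ 6 + 70 * s ^ 4 + 49 * s ^ 2 + 45) / 315 := by
  rw [E8_choose s hs, choose7, choose7, choose7, choose7]
  push_cast
  ring

/-- the weights of the sum of four digits from `[0,s)`, normalised -/
noncomputable def w4 (s t : ℕ) : ℝ := ((PP1 s) ^ 4).coeff t / (s : ℝ) ^ 4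

lemma w4_sq (s N : ℕ) (hs : 1 ≤ s) (hN : 4 * (s - 1) < N) : ∑ t ∈ range N, (w4 s t) ^ 2 =
    (151 * (s : ℝ) ^ 6 + 70 * s ^ 4 + 49 * s ^ 2 + 45) / (315 * s ^ 7) := by
  have hs0 : (s : ℝ) ≠ 0 := by
    have : s ≠ 0 := by omega
    exact_mod_cast this
  unfold w4
  simp only [div_pow]
  rw [← sum_div]
  have h1 : ((PP1 s) ^ 4).natDegree = 4 * (s - 1) := by
    rw [natDegree_pow, PP1_deg s hs]
  have h2 := sum_sq_coeff ((PP1 s) ^ 4) (by rw [reverse_pow', PP1_reverse]) N (by rw [h1]; exact hN)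
  rw [h2, h1, ← pow_add, E8_formula s hs]
  field_simp

end Pool.Agent.W139.PW
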