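import Mathlib
import Pool.Agent.W139.PW.A2
import Pool.Agent.W139.PW.A3

/-!
# Weights at one position: comparison of `ph` with digit polynomials of small energy
-/

set_option autoImplicit false

namespace Pool.Agent.W139.PW

open Finset Pool.Agent.Helper112 Pool.Agent.H39R3.PB Pool.Agent.H944R3.PB

/-- evaluation of a polynomial at `e(β)` -/
lemma W1_poly (b : ℕ) (p : Polynomial ℝ) (hp : p.natDegree < 2 * b - 1) (β : ℝ) :
    W1 b (fun t => p.coeff t) β = p.eval₂ Complex.ofRealHom (ee β) := by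
  rw [Polynomial.eval₂_eq_sum_range' _ hp]
  unfold W1
  apply sum_congr rfl
  intro t _
  rw [ls_ee_nat_mul]
  rfl

lemma W1_div (b : ℕ) (w : ℕ → ℝ) (c : ℝ) (β : ℝ) :
    W1 b (fun t => w t / c) β = W1 b w β / c := by
  unfold W1
  rw [sum_div]
  apply sum_congr rfl
  intro t _
  push_cast
  ring

lemma eval_PP1 (s : ℕ) (β : ℝ) : (PP1 s).eval₂ Complex.ofRealHom (ee β) = ∑ m ∈ range s, ee ((m : ℝ) * β) := by
  unfold PP1
  rw [Polynomial.eval₂_finsetSum]
  apply sum_congr rfl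
  intro m _
  rw [Polynomial.eval₂_pow, Polynomial.eval₂_X, ls_ee_nat_mul]

lemma norm_sum_ee (s : ℕ) (hs : 1 ≤ s) (β : ℝ) : ‖∑ m ∈ range s, ee ((m : ℝ) * β)‖ = s * ph s β := by
  unfold ph
  have : (s : ℝ) ≠ 0 := by
    have : s ≠ 0 := by omega
    exact_mod_cast this
  rw [mul_div_cancel₀ _ this]

/-- the weights of the sum of `r` digits from `[0,s)` and `u` digits from `[0,t)`, normalised -/
noncomputable def wg (s r t u n : ℕ) : ℝ := ((PP1 s) ^ r * (PP1 t) ^ u).coeff n / ((s : ℝ) ^ r * (t : ℝ) ^ u)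

lemma norm_W1_wg (b s r t u : ℕ) (hs : 1 ≤ s) (ht : 1 ≤ t) (hd : r * (s - 1) + u * (t - 1) < 2 * b - 1)
    (β : ℝ) : ‖W1 b (wg s r t u) β‖ = ph s β ^ r * ph t β ^ u := by
  have hs0 : (0 : ℝ) < s := by exact_mod_cast hs
  have ht0 : (0 : ℝ) < t := by exact_mod_cast ht
  have h1 : W1 b (wg s r t u) β = W1 b (fun n => ((PP1 s) ^ r * (PP1 t) ^ u).coeff n) β /
      (((s : ℝ) ^ r * (t : ℝ) ^ u : ℝ) : ℂ) := W1_div b _ _ β
  have h2 : ((PP1 s) ^ r * (PP1 t) ^ u).natDegree < 2 * b - 1 := by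
    refine lt_of_le_of_lt Polynomial.natDegree_mul_le ?_
    rw [Polynomial.natDegree_pow, Polynomial.natDegree_pow, PP1_deg s hs, PP1_deg t ht]
    exact hd
  rw [h1, W1_poly b _ h2, Polynomial.eval₂_mul, Polynomial.eval₂_pow, Polynomial.eval₂_pow, eval_PP1,
    eval_PP1, norm_div, norm_mul, norm_pow, norm_pow, norm_sum_ee s hs, norm_sum_ee t ht,
    Complex.norm_real, Real.norm_of_nonneg (by positivity)]
  rw [mul_pow, mul_pow]
  field_simp

/-- the property of the weights we need -/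
def MomOK (b s1 s2 : ℕ) (θ : ℝ) : Prop := ∃ w : ℕ → ℝ,
  b * ∑ t ∈ range (2 * b - 1), (w t) ^ 2 ≤ θ ∧ ∀ β : ℝ, (ph s1 β * ph s2 β) ^ 4 ≤ ‖W1 b w β‖

lemma MomOK_mono {b s1 s2 : ℕ} {θ θ' : ℝ} (h : θ ≤ θ') (hM : MomOK b s1 s2 θ) : MomOK b s1 s2 θ' := by
  obtain ⟨w, h1, h2⟩ := hM
  exact ⟨w, h1.trans h, h2⟩

lemma pow_le_aux {x y : ℝ} (hx0 : 0 ≤ x) (hx1 : x ≤ 1) (hy0 : 0 ≤ y) (hy1 : y ≤ 1) (r u : ℕ)
    (hr : r ≤ 4) (hu : u ≤ 4) : (x * y) ^ 4 ≤ x ^ r * y ^ u := by
  rw [mul_pow]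
  exact mul_le_mul (pow_le_pow_of_le_one hx0 hx1 hr) (pow_le_pow_of_le_one hy0 hy1 hu) (by positivity)
    (by positivity)

/-- middle digit -/
lemma momOK_one (b : ℕ) (hb : 1 ≤ b) : MomOK b 1 1 b := by
  refine ⟨wg 1 0 1 0, ?_, ?_⟩
  · have : ∑ t ∈ range (2 * b - 1), (wg 1 0 1 0 t) ^ 2 = 1 := by
      unfold wg
      simp only [pow_zero, mul_one, div_one, Polynomial.coeff_one]
      rw [sum_eq_single 0]
      · simp
      · intro c _ hc
        simp [hc]
      · intro h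
        exfalso
        apply h
        rw [mem_range]
        omega
    rw [this, mul_one]
  · intro β
    rw [norm_W1_wg b 1 0 1 0 le_rfl le_rfl (by omega)]
    exact pow_le_aux (ph_nonneg _ _) (ph_le_one _ _) (ph_nonneg _ _) (ph_le_one _ _) 0 0 (by omega) (by omega)

/-- uniform digits -/
lemma momOK_unif (b : ℕ) (hb : 2 ≤ b) : MomOK b b 1 (3 / 4) := by
  have hb0 : (0 : ℝ) < b := by exact_mod_cast (by omega : 0 < b)
  refine ⟨fun t => (w2 b t : ℝ) / (b : ℝ) ^ 2, ?_, ?_⟩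
  · have h := EE_le b hb
    have h1 : ∑ t ∈ range (2 * b - 1), ((w2 b t : ℝ) / (b : ℝ) ^ 2) ^ 2 = EE b / (b : ℝ) ^ 4 := by
      unfold EE
      rw [sum_div]
      apply sum_congr rfl
      intro t _
      rw [div_pow, ← pow_mul]
    rw [h1, ← mul_div_assoc, div_le_iff₀ (by positivity)]
    calc (b : ℝ) * EE b ≤ b * (3 / 4 * (b : ℝ) ^ 3) := by gcongr
      _ = 3 / 4 * (b : ℝ) ^ 4 := by ring
  · intro β
    have h1 : W1 b (fun t => (w2 b t : ℝ) / (b : ℝ) ^ 2) β = DD b β ^ 2 / (((b : ℝ) ^ 2 : ℝ) : ℂ) := by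
      rw [W1_div, DD_sq b (by omega)]
      unfold W1
      simp
    have h2 : ‖DD b β‖ = b * ph b β := norm_sum_ee b (by omega) β
    rw [h1, norm_div, norm_pow, h2, Complex.norm_real, Real.norm_of_nonneg (by positivity)]
    have h3 : (b * ph b β) ^ 2 / (b : ℝ) ^ 2 = ph b β ^ 2 * ph 1 β ^ 0 := by
      field_simp
    rw [h3]
    exact pow_le_aux (ph_nonneg _ _) (ph_le_one _ _) (ph_nonneg _ _) (ph_le_one _ _) 2 0 (by omega) (by omega)

/-- weighted digits, by the eighth moment of the smaller factor -/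
lemma momOK_8 (b s1 s2 : ℕ) (hs1 : 1 ≤ s1) (hd : 4 * (s1 - 1) < 2 * b - 1) :
    MomOK b s1 s2 (b * ((151 * (s1 : ℝ) ^ 6 + 70 * s1 ^ 4 + 49 * s1 ^ 2 + 45) / (315 * s1 ^ 7))) := by
  refine ⟨wg s1 4 1 0, ?_, ?_⟩
  · have h1 : ∀ t, wg s1 4 1 0 t = w4 s1 t := by
      intro t
      unfold wg w4
      simp
    simp only [h1]
    rw [w4_sq s1 _ hs1 hd]
  · intro β
    rw [norm_W1_wg b s1 4 1 0 hs1 le_rfl (by omega)]
    have h1 := pow_le_aux (ph_nonneg s1 β) (ph_le_one s1 β) (ph_nonneg s2 β) (ph_le_one s2 β) 4 0 (by omega)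
      (by omega)
    simpa using h1

lemma momOK_4 : MomOK 4 2 3 (262 / 324) := by
  refine ⟨wg 2 2 3 2, ?_, ?_⟩
  · have h1 : (PP1 2) ^ 2 * (PP1 3) ^ 2 = (1 + 4 * Polynomial.X + 8 * Polynomial.X ^ 2 + 10 * Polynomial.X ^ 3 +
        8 * Polynomial.X ^ 4 + 4 * Polynomial.X ^ 5 + Polynomial.X ^ 6 : Polynomial ℝ) := by
      unfold PP1
      simp only [sum_range_succ, sum_range_zero]
      ring
    have h2 : ∑ t ∈ range (2 * 4 - 1), (wg 2 2 3 2 t) ^ 2 = 262 / 1296 := by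
      unfold wg
      rw [h1]
      have e1 : ∀ n : ℕ, (1 + 4 * Polynomial.X + 8 * Polynomial.X ^ 2 + 10 * Polynomial.X ^ 3 +
        8 * Polynomial.X ^ 4 + 4 * Polynomial.X ^ 5 + Polynomial.X ^ 6 : Polynomial ℝ).coeff n =
          (if n = 0 then 1 else 0) + 4 * (if n = 1 then 1 else 0) + 8 * (if n = 2 then 1 else 0) +
          10 * (if n = 3 then 1 else 0) + 8 * (if n = 4 then 1 else 0) + 4 * (if n = 5 then 1 else 0) +
          (if n = 6 then 1 else 0) := by
        intro n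
        have a1 : (4 : Polynomial ℝ) = Polynomial.C 4 := (map_ofNat Polynomial.C 4).symm
        have a2 : (8 : Polynomial ℝ) = Polynomial.C 8 := (map_ofNat Polynomial.C 8).symm
        have a3 : (10 : Polynomial ℝ) = Polynomial.C 10 := (map_ofNat Polynomial.C 10).symm
        rw [a1, a2, a3]
        simp only [Polynomial.coeff_add, Polynomial.coeff_C_mul, Polynomial.coeff_X_pow, Polynomial.coeff_one,
          Polynomial.coeff_X]
        simp only [eq_comm]
      simp only [e1]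
      norm_num [sum_range_succ]
    rw [h2]
    norm_num
  · intro β
    rw [norm_W1_wg 4 2 2 3 2 (by omega) (by omega) (by omega)]
    exact pow_le_aux (ph_nonneg _ _) (ph_le_one _ _) (ph_nonneg _ _) (ph_le_one _ _) 2 2 (by omega) (by omega)

lemma momOK_6 : MomOK 6 3 4 (2916 / 3456) := by
  refine ⟨wg 3 2 4 2, ?_, ?_⟩
  · have h1 : (PP1 3) ^ 2 * (PP1 4) ^ 2 = (1 + 4 * Polynomial.X + 10 * Polynomial.X ^ 2 + 18 * Polynomial.X ^ 3 +
        25 * Polynomial.X ^ 4 + 28 * Polynomial.X ^ 5 + 25 * Polynomial.X ^ 6 + 18 * Polynomial.X ^ 7 +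
        10 * Polynomial.X ^ 8 + 4 * Polynomial.X ^ 9 + Polynomial.X ^ 10 : Polynomial ℝ) := by
      unfold PP1
      simp only [sum_range_succ, sum_range_zero]
      ring
    have h2 : ∑ t ∈ range (2 * 6 - 1), (wg 3 2 4 2 t) ^ 2 = 2916 / 20736 := by
      unfold wg
      rw [h1]
      have e1 : ∀ n : ℕ, (1 + 4 * Polynomial.X + 10 * Polynomial.X ^ 2 + 18 * Polynomial.X ^ 3 +
        25 * Polynomial.X ^ 4 + 28 * Polynomial.X ^ 5 + 25 * Polynomial.X ^ 6 + 18 * Polynomial.X ^ 7 +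
        10 * Polynomial.X ^ 8 + 4 * Polynomial.X ^ 9 + Polynomial.X ^ 10 : Polynomial ℝ).coeff n =
          (if n = 0 then 1 else 0) + 4 * (if n = 1 then 1 else 0) + 10 * (if n = 2 then 1 else 0) +
          18 * (if n = 3 then 1 else 0) + 25 * (if n = 4 then 1 else 0) + 28 * (if n = 5 then 1 else 0) +
          25 * (if n = 6 then 1 else 0) + 18 * (if n = 7 then 1 else 0) + 10 * (if n = 8 then 1 else 0) +
          4 * (if n = 9 then 1 else 0) + (if n = 10 then 1 else 0) := by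
        intro n
        have a1 : (4 : Polynomial ℝ) = Polynomial.C 4 := (map_ofNat Polynomial.C 4).symm
        have a2 : (10 : Polynomial ℝ) = Polynomial.C 10 := (map_ofNat Polynomial.C 10).symm
        have a3 : (18 : Polynomial ℝ) = Polynomial.C 18 := (map_ofNat Polynomial.C 18).symm
        have a4 : (25 : Polynomial ℝ) = Polynomial.C 25 := (map_ofNat Polynomial.C 25).symm
        have a5 : (28 : Polynomial ℝ) = Polynomial.C 28 := (map_ofNat Polynomial.C 28).symm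
        rw [a1, a2, a3, a4, a5]
        simp only [Polynomial.coeff_add, Polynomial.coeff_C_mul, Polynomial.coeff_X_pow, Polynomial.coeff_one,
          Polynomial.coeff_X]
        simp only [eq_comm]
      simp only [e1]
      norm_num [sum_range_succ]
    rw [h2]
    norm_num
  · intro β
    rw [norm_W1_wg 6 3 2 4 2 (by omega) (by omega) (by omega)]
    exact pow_le_aux (ph_nonneg _ _) (ph_le_one _ _) (ph_nonneg _ _) (ph_le_one _ _) 2 2 (by omega) (by omega)

/-- the two digit ranges -/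
def s1 (b : ℕ) : ℕ := (b + 1) / 2
def s2 (b : ℕ) : ℕ := b + 1 - s1 b

/-- for every base `b ≥ 3` the weighted digits have small energy -/
theorem momOK_all (b : ℕ) (hb : 3 ≤ b) : ∃ θ : ℝ, θ < 1 ∧ MomOK b (s1 b) (s2 b) θ := by
  rcases Nat.even_or_odd b with he | ho
  · obtain ⟨s, hs⟩ := he
    have e1 : s1 b = s := by unfold s1; omega
    rcases Nat.lt_or_ge s 4 with h4 | h4
    · have h3 : s = 2 ∨ s = 3 := by omega
      rcases h3 with h3 | h3
      · subst h3
        subst hs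
        exact ⟨_, by norm_num, momOK_4⟩
      · subst h3
        subst hs
        exact ⟨_, by norm_num, momOK_6⟩
    · rw [e1]
      refine ⟨_, ?_, momOK_8 b s (s2 b) (by omega) (by omega)⟩
      have hs4 : (4 : ℝ) ≤ s := by exact_mod_cast h4
      have hbr : (b : ℝ) = 2 * s := by rw [hs]; push_cast; ring
      rw [hbr, ← mul_div_assoc, div_lt_one (by positivity)]
      have h2 : (16 : ℝ) ≤ s ^ 2 := by nlinarith
      have h5 : (s : ℝ) ^ 7 = s * s ^ 2 * s ^ 2 * s ^ 2 := by ring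
      have h6 : 2 * (s : ℝ) * (151 * s ^ 6 + 70 * s ^ 4 + 49 * s ^ 2 + 45) =
        s * (302 * (s ^ 2) ^ 3 + 140 * (s ^ 2) ^ 2 + 98 * s ^ 2 + 90) := by ring
      rw [h6, show 315 * (s : ℝ) ^ 7 = s * (315 * (s ^ 2) ^ 3) by ring]
      apply mul_lt_mul_of_pos_left _ (by linarith)
      generalize (s : ℝ) ^ 2 = y at h2
      have h7 : 16 * y ^ 2 ≤ y ^ 3 := by nlinarith [sq_nonneg y]
      have h8 : 16 * y ≤ y ^ 2 := by nlinarith
      nlinarith
  · obtain ⟨k, hk⟩ := ho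
    obtain ⟨s, hs⟩ : ∃ s, s = k + 1 := ⟨_, rfl⟩
    have e1 : s1 b = s := by unfold s1; omega
    rw [e1]
    refine ⟨_, ?_, momOK_8 b s (s2 b) (by omega) (by omega)⟩
    have hs4 : (2 : ℝ) ≤ s := by
      have : 2 ≤ s := by omega
      exact_mod_cast this
    have hbr : (b : ℝ) = 2 * s - 1 := by
      have : b + 1 = 2 * s := by omega
      have h2 : (b : ℝ) + 1 = 2 * s := by exact_mod_cast this
      linarith
    rw [hbr, ← mul_div_assoc, div_lt_one (by positivity)]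
    have h1 : 0 < (s : ℝ) ^ 7 := by positivity
    have h2 : (0 : ℝ) ≤ s ^ 5 * (s - 2) := by
      have : 0 ≤ (s : ℝ) - 2 := by linarith
      positivity
    have h3 : (0 : ℝ) ≤ s ^ 3 * (s - 2) := by
      have : 0 ≤ (s : ℝ) - 2 := by linarith
      positivity
    have h4 : (0 : ℝ) ≤ s * (s - 2) := by
      have : 0 ≤ (s : ℝ) - 2 := by linarith
      positivity
    have h6 : (0 : ℝ) ≤ s ^ 4 * (s - 2) := by
      have : 0 ≤ (s : ℝ) - 2 := by linarith
      positivity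
    have h7 : (0 : ℝ) ≤ s ^ 6 * (s - 2) := by
      have : 0 ≤ (s : ℝ) - 2 := by linarith
      positivity
    have h8 : (0 : ℝ) ≤ s ^ 2 * (s - 2) := by
      have : 0 ≤ (s : ℝ) - 2 := by linarith
      positivity
    nlinarith

end Pool.Agent.W139.PW
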