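import Mathlib
import Pool.Agent.W139.PW.A1
import Pool.Agent.W139.PW.A4

/-!
# Majorants that are convex combinations of Fejér kernels
-/

set_option autoImplicit false

namespace Pool.Agent.W139.PW

open Finset Pool.Agent.Helper112 Pool.Agent.H39R3.PB

/-- convex combination of the squares `ph (s i) ^ 2`, `i ∈ I` -/
noncomputable def Mx (I : Finset ℕ) (g : ℕ → ℝ) (s : ℕ → ℕ) (β : ℝ) : ℝ := ∑ i ∈ I, g i * ph (s i) β ^ 2

/-- admissible data for a majorant of mean value at most `μ` -/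
def MxOK (b : ℕ) (I : Finset ℕ) (g : ℕ → ℝ) (s : ℕ → ℕ) (μ : ℝ) : Prop :=
  (∀ i ∈ I, 0 ≤ g i) ∧ (∀ i ∈ I, 1 ≤ s i) ∧ (∀ i ∈ I, s i ≤ b) ∧ ∑ i ∈ I, g i = 1 ∧ ∑ i ∈ I, g i / s i ≤ μ

/-- the product `ph u * ph v` has a majorant of mean value at most `μ` -/
def MajOK (b u v : ℕ) (μ : ℝ) : Prop := ∃ (I : Finset ℕ) (g : ℕ → ℝ) (s : ℕ → ℕ), MxOK b I g s μ ∧
  ∀ β : ℝ, ph u β * ph v β ≤ Mx I g s β

lemma MxOK_mono {b : ℕ} {I : Finset ℕ} {g : ℕ → ℝ} {s : ℕ → ℕ} {μ μ' : ℝ} (h : μ ≤ μ') (hM : MxOK b I g s μ) :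
    MxOK b I g s μ' := ⟨hM.1, hM.2.1, hM.2.2.1, hM.2.2.2.1, hM.2.2.2.2.trans h⟩

lemma Mx_nonneg {b : ℕ} {I : Finset ℕ} {g : ℕ → ℝ} {s : ℕ → ℕ} {μ : ℝ} (hM : MxOK b I g s μ) (β : ℝ) :
    0 ≤ Mx I g s β := sum_nonneg fun i hi => mul_nonneg (hM.1 i hi) (sq_nonneg _)

/-- complete sums of products of majorants -/
theorem apts_Mx {b : ℕ} (hb : 2 ≤ b) (L Q : ℕ) (T : ℝ) (B : Finset ℕ) (hB : B ⊆ range L)
    (I : ℕ → Finset ℕ) (g : ℕ → ℕ → ℝ) (s : ℕ → ℕ → ℕ) (μ : ℕ → ℝ) (hM : ∀ c ∈ B, MxOK b (I c) (g c) (s c) (μ c))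
    (hT : ∀ n : ℕ, 1 ≤ n → n ≤ b ^ (2 * L + 1) → (n.divisors.card : ℝ) ≤ T) :
    apts b Q (fun α => ∏ c ∈ B, Mx (I c) (g c) (s c) (fr b L c * α)) ≤
      2 * Q * (Q * ∏ c ∈ B, μ c + T) := by
  classical
  have hT0 : 0 ≤ T := by
    have := hT 1 le_rfl (Nat.one_le_pow _ _ (by omega))
    refine le_trans ?_ this
    positivity
  have h1 : (fun α : ℝ => ∏ c ∈ B, Mx (I c) (g c) (s c) (fr b L c * α)) = fun α =>
      ∑ p ∈ B.pi I, (∏ x ∈ B.attach, g x.1 (p x.1 x.2)) *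
        ∏ c ∈ B, ph (if h : c ∈ B then s c (p c h) else 1) (fr b L c * α) ^ 2 := by
    funext α
    unfold Mx
    rw [prod_sum]
    apply sum_congr rfl
    intro p _
    rw [prod_mul_distrib]
    congr 1
    rw [← prod_attach B (fun c => ph (if h : c ∈ B then s c (p c h) else 1) (fr b L c * α) ^ 2)]
    apply prod_congr rfl
    intro x _
    rw [dif_pos x.2]
  rw [h1, apts_sum]
  have hg0 : ∀ p ∈ B.pi I, 0 ≤ ∏ x ∈ B.attach, g x.1 (p x.1 x.2) := by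
    intro p hp
    apply prod_nonneg
    intro x _
    exact (hM x.1 x.2).1 _ (mem_pi.1 hp x.1 x.2)
  have h2 : ∀ p ∈ B.pi I, apts b Q (fun α => (∏ x ∈ B.attach, g x.1 (p x.1 x.2)) *
        ∏ c ∈ B, ph (if h : c ∈ B then s c (p c h) else 1) (fr b L c * α) ^ 2) ≤
      (∏ x ∈ B.attach, g x.1 (p x.1 x.2)) *
        (2 * Q * (Q * ∏ c ∈ B, (1 / ((if h : c ∈ B then s c (p c h) else 1 : ℕ) : ℝ)) + T)) := by
    intro p hp
    rw [apts_mul_left]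
    apply mul_le_mul_of_nonneg_left _ (hg0 p hp)
    apply apts_sq hb L Q T B hB (fun c => if h : c ∈ B then s c (p c h) else 1)
    · intro c hc
      rw [dif_pos hc]
      exact (hM c hc).2.2.1 _ (mem_pi.1 hp c hc)
    · intro c hc
      rw [dif_pos hc]
      exact (hM c hc).2.1 _ (mem_pi.1 hp c hc)
    · exact hT
  refine (sum_le_sum h2).trans ?_
  have h3 : ∑ p ∈ B.pi I, ∏ x ∈ B.attach, g x.1 (p x.1 x.2) = 1 := by
    rw [← prod_sum B I g]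
    apply prod_eq_one
    intro c hc
    exact (hM c hc).2.2.2.1
  have h4 : ∑ p ∈ B.pi I, (∏ x ∈ B.attach, g x.1 (p x.1 x.2)) *
      ∏ c ∈ B, (1 / ((if h : c ∈ B then s c (p c h) else 1 : ℕ) : ℝ)) ≤ ∏ c ∈ B, μ c := by
    have h5 : ∑ p ∈ B.pi I, (∏ x ∈ B.attach, g x.1 (p x.1 x.2)) *
      ∏ c ∈ B, (1 / ((if h : c ∈ B then s c (p c h) else 1 : ℕ) : ℝ)) =
        ∏ c ∈ B, ∑ i ∈ I c, g c i / s c i := by
      rw [prod_sum]
      apply sum_congr rfl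
      intro p _
      rw [← prod_attach B (fun c => (1 / ((if h : c ∈ B then s c (p c h) else 1 : ℕ) : ℝ))),
        ← prod_mul_distrib]
      apply prod_congr rfl
      intro x _
      rw [dif_pos x.2]
      ring
    rw [h5]
    apply prod_le_prod
    · intro c hc
      exact sum_nonneg fun i hi => div_nonneg ((hM c hc).1 i hi) (Nat.cast_nonneg _)
    · intro c hc
      exact (hM c hc).2.2.2.2
  have h6 : ∀ p ∈ B.pi I, (∏ x ∈ B.attach, g x.1 (p x.1 x.2)) *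
        (2 * Q * (Q * ∏ c ∈ B, (1 / ((if h : c ∈ B then s c (p c h) else 1 : ℕ) : ℝ)) + T)) =
      2 * Q * Q * ((∏ x ∈ B.attach, g x.1 (p x.1 x.2)) *
        ∏ c ∈ B, (1 / ((if h : c ∈ B then s c (p c h) else 1 : ℕ) : ℝ))) +
      2 * Q * T * (∏ x ∈ B.attach, g x.1 (p x.1 x.2)) := by
    intro p _
    ring
  rw [sum_congr rfl h6, sum_add_distrib, ← mul_sum (f := fun p : (a : ℕ) → a ∈ B → ℕ =>
    (∏ x ∈ B.attach, g x.1 (p x.1 x.2)) *
        ∏ c ∈ B, (1 / ((if h : c ∈ B then s c (p c h) else 1 : ℕ) : ℝ))),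
    ← mul_sum (f := fun p : (a : ℕ) → a ∈ B → ℕ => ∏ x ∈ B.attach, g x.1 (p x.1 x.2)), h3]
  have h7 : 0 ≤ 2 * (Q : ℝ) * Q := by positivity
  have h8 := mul_le_mul_of_nonneg_left h4 h7
  calc _ ≤ 2 * (Q : ℝ) * Q * ∏ c ∈ B, μ c + 2 * Q * T * 1 := by linarith
    _ = _ := by ring

/-- a product of two digit sums -/
lemma majOK_pair (b u v : ℕ) (hu : 1 ≤ u) (hub : u ≤ b) (hv : 1 ≤ v) (hvb : v ≤ b) :
    MajOK b u v ((1 / (u : ℝ) + 1 / (v : ℝ)) / 2) := by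
  refine ⟨{0, 1}, fun _ => 1 / 2, fun i => if i = 0 then u else v, ⟨?_, ?_, ?_, ?_, ?_⟩, ?_⟩
  · intro i _; norm_num
  · intro i _; simp only; split_ifs <;> assumption
  · intro i _; simp only; split_ifs <;> assumption
  · rw [sum_pair (by norm_num)]; norm_num
  · rw [sum_pair (by norm_num)]
    simp only [if_true, if_neg one_ne_zero]
    apply le_of_eq
    ring
  · intro β
    unfold Mx
    rw [sum_pair (by norm_num)]
    simp only [if_true, if_neg one_ne_zero]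
    nlinarith [sq_nonneg (ph u β - ph v β)]

end Pool.Agent.W139.PW
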